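import Pool.Agent.PCO.StmtsB

/-!
# PCO squad, row HEQ (boxes near a special pair have the same U)
-/

set_option autoImplicit false

open Matrix Filter Topology

namespace Pool.Agent.PCO.H88

open Pool.Agent.PFS Pool.Agent.PFJ

/-- independence of a boundary element which is not a combination -/
theorem ind2_of {n : ℕ} {x y z : V n} (hx : x ≠ 0) (h : ∀ α β : ℝ, z ≠ α • x + β • y) :
    Ind2 x z := by
  intro α β hab
  by_cases hβ : β = 0
  · subst hβ
    rw [zero_smul, add_zero] at hab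
    rcases smul_eq_zero.mp hab with h1 | h1
    · exact ⟨h1, rfl⟩
    · exact absurd h1 hx
  · exfalso
    apply h (-(α / β)) 0
    have h1 : β⁻¹ • (α • x + β • z) = 0 := by rw [hab, smul_zero]
    have h2 : β⁻¹ • (α • x + β • z) = (α / β) • x + z := by
      rw [smul_add, smul_smul, smul_smul, inv_mul_cancel₀ hβ, one_smul]
      congr 2
      ring
    rw [h2] at h1
    have h3 : z = -((α / β) • x) := by
      rw [eq_neg_iff_add_eq_zero, add_comm]; exact h1
    rw [h3]; module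

/-- the claim: a boundary element independent of `a` is in `U_m` for large `m` -/
theorem heqA (hWbf : WbfStmt) (hBf1 : Bf1Stmt) (hBf2 : Bf2Stmt) (hBxm : BxmStmt)
    (hBxw : BxwStmt) (hFfp : FfpStmt) (hDir : DirStmt) (hClm : ClmStmt) (hSpf : SpfStmt)
    (hHlm : HlmStmt) {n : ℕ} {C : Set (V n)} {Γ : Subgroup (GL (Fin n) ℝ)} {d : ℕ}
    (hd : Hyp C Γ d) {U : Submodule ℝ (V n)} {v v' a : V n} {ρ : ℝ} (hS : Spc C Γ d U v v' a ρ)
    {Um : ℕ → Submodule ℝ (V n)} {vm am : ℕ → V n} (hbx : ∀ m, Bx C Γ (Um m) (vm m))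
    (hfr : ∀ m, Module.finrank ℝ (Um m) = d) (ham : ∀ m, am m ∈ Um m) (hL : LimS Um U)
    (hv : Tendsto vm atTop (𝓝 v)) (ha : Tendsto am atTop (𝓝 a)) {c : V n} (hc : Bd C U c)
    (hac : Ind2 a c) : ∀ᶠ m in atTop, c ∈ Um m := by
  have hCC : CC C Γ := hd.toCC
  have hP : PCone C := hCC.toPCone
  obtain ⟨hvL, hvcl, hvne, hvU, hstr, hmem, -, -, -⟩ := hBf1 n C Γ hCC hd.maxc U v hS.box
  have haU : a ∈ U := hS.bd.1
  have hacl : a ∈ closure C := hS.bd.2.1
  have huac : Unt C U (a + c) := hstr a haU c hc.1 hacl hc.2.1 hac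
  rcases hFfp n C Γ d hd U v Um vm hS.box hS.dim hbx hfr hL hv a c 0 haU hacl hc.1 hc.2.1 huac
    le_rfl with h1 | h1
  · -- always near
    have hExt : Ext C c := (hBxm n C Γ d hd U v hS.box hS.dim).2.2.2.1 c hc
    have h2 : ∀ᶠ m in atTop, c ∈ Um m ∨ ∃ k : ℝ, 0 < k ∧ c = k • vm m := by
      filter_upwards [h1] with m hm
      have h3 : c ∈ Wb (Um m) (vm m) := by
        refine hDir n C hP (Wb (Um m) (vm m)) (a + v) c (hP.cl_add hacl hvcl) hc.2.1 hc.2.2.1
          hExt fun j => ?_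
        have h4 := hm j
        have h5 : a + (2 : ℝ) ^ j • c + (1 + (2 : ℝ) ^ j * 0) • v = a + v + (2 : ℝ) ^ j • c := by
          rw [mul_zero, add_zero, one_smul]; abel
        rwa [h5] at h4
      exact hBxw n C Γ hCC hd.maxc (Um m) (vm m) (hbx m) c h3 hc.2.1 hExt hc.2.2.1
    by_contra hcon
    have h3 : ∃ᶠ m in atTop, c ∉ Um m := Filter.not_eventually.mp hcon
    have h4 : ∃ᶠ m in atTop, ∃ k : ℝ, 0 < k ∧ c = k • vm m := by
      refine (h3.and_eventually h2).mono fun m hm => ?_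
      rcases hm.2 with h5 | h5
      · exact absurd h5 hm.1
      · exact h5
    obtain ⟨φ, hφ, h5⟩ := extraction_of_frequently_atTop h4
    apply hvU
    have hcl : IsClosed (U : Set (V n)) := Submodule.closed_of_finiteDimensional U
    refine hcl.mem_of_tendsto (hv.comp hφ.tendsto_atTop) (Eventually.of_forall fun m => ?_)
    obtain ⟨k, hk, hk2⟩ := h5 m
    have h6 : vm (φ m) = k⁻¹ • c := by
      rw [hk2, smul_smul, inv_mul_cancel₀ hk.ne', one_smul]
    show vm (φ m) ∈ U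
    rw [h6]
    exact U.smul_mem _ hc.1
  · -- first failure
    exfalso
    obtain ⟨φ, k, g, s, r, U1, U2, f1, v1, v2, hφ, -, hg, hs, hr, hB1, hd1, hB2, hd2, hf1U,
      hf1, hv1, hv2, hLim1, hLim2, hne, -, hzero⟩ := h1
    obtain ⟨-, -, hv1ne, -, -, hmem1, -, -, -⟩ := hBf1 n C Γ hCC hd.maxc U1 v1 hB1
    obtain ⟨-, -, hv2ne, -, -, -, -, -, -⟩ := hBf1 n C Γ hCC hd.maxc U2 v2 hB2
    have hv1' : Tendsto (fun m => s m • act (g m) v) atTop (𝓝 v1) := by
      refine hv1.congr fun m => ?_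
      rw [mul_zero, add_zero, one_smul]
    have hp : f1 + v1 ∈ C := by
      have h2 := (hmem1 f1 hf1U.1 1).mpr ⟨hf1U, one_pos⟩
      rwa [one_smul] at h2
    have hbd : ∀ m, Bd C U ((2 : ℝ) ^ (k m) • c) := by
      intro m
      have hpos : (0 : ℝ) < (2 : ℝ) ^ (k m) := by positivity
      refine ⟨U.smul_mem _ hc.1, hP.cl_smul hc.2.1 hpos.le, smul_ne_zero hpos.ne' hc.2.2.1,
        fun hu => hc.2.2.2 ?_⟩
      have h3 := Pool.Agent.PFJ.H76.unt_smul hP hu (inv_pos.mpr hpos)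
      rwa [smul_smul, inv_mul_cancel₀ hpos.ne', one_smul] at h3
    have hT : Tendsto (fun m => s m • act (g m) (a + (2 : ℝ) ^ (k m) • c + v)) atTop
        (𝓝 (f1 + v1)) := by
      refine (hf1.add hv1').congr fun m => ?_
      rw [CC.act_add, CC.act_add, CC.act_add]
      simp only [smul_add]
    obtain ⟨ψ, U1', w1, w1', a1, hψ, hSp, hLψ, hwψ, -, haψ⟩ :=
      hHlm n C Γ d hd U v v' a ρ hS (fun m => (2 : ℝ) ^ (k m) • c) g s (f1 + v1) hbd hg hs hp hT
    have hw : w1 = v1 := tendsto_nhds_unique hwψ (hv1'.comp hψ.tendsto_atTop)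
    have hLsf := Pool.Agent.PFJ.H10.lsf n
    have hU : U1' = U1 := by
      refine hLsf.2.2.1 (fun m => img (g (ψ m)) U) U1' U1 hLψ ?_
      exact hLsf.1 (fun m => img (g m) U) U1 ψ hLim1 hψ
    subst hw
    subst hU
    -- the apex of the limit
    have hgv : Tendsto (fun m => s m • act (g m) (vm (φ m))) atTop (𝓝 w1) := by
      have h2 := hzero (fun m => vm (φ m)) v (hv.comp hφ.tendsto_atTop)
      have h3 := h2.add hv1'
      rw [zero_add] at h3
      refine h3.congr fun m => ?_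
      rw [CC.act_sub, smul_sub, sub_add_cancel]
    have hrv : Tendsto (fun m => r m • (s m • act (g m) (vm (φ m)))) atTop (𝓝 v2) := by
      refine hv2.congr fun m => ?_
      rw [CC.act_smul, smul_smul, smul_smul, mul_comm]
    have hw1n : 0 < ‖w1‖ := norm_pos_iff.mpr hv1ne
    have hv2n : 0 < ‖v2‖ := norm_pos_iff.mpr hv2ne
    have hrlim : Tendsto r atTop (𝓝 (‖v2‖ / ‖w1‖)) := by
      have h2 := (hrv.norm).div hgv.norm hw1n.ne'
      refine h2.congr' ?_
      have h3 : ∀ᶠ m in atTop, 0 < ‖s m • act (g m) (vm (φ m))‖ :=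
        hgv.norm.eventually (lt_mem_nhds hw1n)
      filter_upwards [h3] with m hm
      show ‖r m • (s m • act (g m) (vm (φ m)))‖ / ‖s m • act (g m) (vm (φ m))‖ = r m
      rw [norm_smul, Real.norm_of_nonneg (hr m).le, mul_div_assoc, div_self hm.ne', mul_one]
    set t : ℝ := ‖v2‖ / ‖w1‖ with ht
    have htp : 0 < t := div_pos hv2n hw1n
    have hv2t : v2 = t • w1 := tendsto_nhds_unique hrv (hrlim.smul hgv)
    have hB2' : Bx C Γ U2 w1 := by
      have h2 := (hBf2 n C Γ hCC hd.maxc U2 v2 hB2).2.2.2.2.1 t⁻¹ (inv_pos.mpr htp)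
      rwa [hv2t, smul_smul, inv_mul_cancel₀ htp.ne', one_smul] at h2
    -- a1 in U2
    have ha1 : a1 ∈ U2 := by
      have h2 := (hzero (fun m => am (φ m)) a (ha.comp hφ.tendsto_atTop)).comp hψ.tendsto_atTop
      have h3 := h2.add haψ
      rw [zero_add] at h3
      refine hLim2.2 ψ (fun m => s (ψ m) • act (g (ψ m)) (am (φ (ψ m)))) a1 hψ (fun m => ?_) ?_
      · exact Submodule.smul_mem _ _ (mem_img.mpr ⟨am (φ (ψ m)), ham _, rfl⟩)
      · refine h3.congr fun m => ?_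
        show s (ψ m) • act (g (ψ m)) (am (φ (ψ m)) - a) + s (ψ m) • act (g (ψ m)) a =
          s (ψ m) • act (g (ψ m)) (am (φ (ψ m)))
        rw [CC.act_sub, smul_sub, sub_add_cancel]
    have ha1C : a1 + w1 ∉ C := by
      intro h2
      have h3 : a1 + (1 : ℝ) • w1 ∈ C := by rwa [one_smul]
      exact hSp.bd.2.2.2 ((hmem1 a1 hSp.bd.1 1).mp h3).1
    have hbd2 : Bd C U2 a1 := by
      refine ⟨ha1, hSp.bd.2.1, hSp.bd.2.2.1, fun hu => ha1C ?_⟩
      have hmem2 := (hBf1 n C Γ hCC hd.maxc U2 w1 hB2').2.2.2.2.2.1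
      have h3 := (hmem2 a1 ha1 1).mpr ⟨hu, one_pos⟩
      rwa [one_smul] at h3
    have hface := (hSpf n C Γ d hd U1' w1 w1' a1 ρ hSp).2.2.2.1
    have hUU : U2 = U1' := hClm n C Γ d hd U1' U2 w1 a1 hB1 hB2' hd1 hd2 hSp.bd hbd2 hface
    apply hne
    rw [hUU, hv2t]
    exact ((hWbf n).2.2.1 U1' w1 t htp.ne').symm

theorem heq (hWbf : WbfStmt) (hBf1 : Bf1Stmt) (hBf2 : Bf2Stmt) (hBxm : BxmStmt)
    (hBxw : BxwStmt) (hFfp : FfpStmt) (hDir : DirStmt) (hClm : ClmStmt) (hSpf : SpfStmt)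
    (hHlm : HlmStmt) : HeqStmt := by
  intro n C Γ d hd U v v' a ρ hS Um vm am hbx hfr ham hL hv ha
  have hCC : CC C Γ := hd.toCC
  have hane : a ≠ 0 := hS.bd.2.2.1
  have h4 := (hBf2 n C Γ hCC hd.maxc U v hS.box).2.2.2.1
  obtain ⟨c, hc, hcne⟩ := h4 a 0
  obtain ⟨c', hc', hcne'⟩ := h4 a c
  have hac : Ind2 a c := ind2_of hane hcne
  have hac' : Ind2 a c' := ind2_of hane hcne'
  have hcc' : Ind2 c c' := by
    refine ind2_of (y := a) hc.2.2.1 fun α β h => hcne' β α ?_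
    rw [h, add_comm]
  have e1 := heqA hWbf hBf1 hBf2 hBxm hBxw hFfp hDir hClm hSpf hHlm hd hS hbx hfr ham hL hv ha
    hc hac
  have e2 := heqA hWbf hBf1 hBf2 hBxm hBxw hFfp hDir hClm hSpf hHlm hd hS hbx hfr ham hL hv ha
    hc' hac'
  filter_upwards [e1, e2] with m hm1 hm2
  exact (hBxm n C Γ d hd U v hS.box hS.dim).2.2.2.2.2.2 (Um m) (vm m) (hbx m) (hfr m) c hc.1 c'
    hc'.1 hc.2.1 hc'.2.1 hcc' hm1 hm2

end Pool.Agent.PCO.H88
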